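import Mathlib

namespace Pool.Agent.Results.MP_c84e26_co.Denser

open Filter

/-- Membership in the set of P-positions of the ruleset R: n belongs to it when no M in R with
all elements at most n has all n - m in the set. -/
def InA (R : Set (Finset ℕ)) (n : ℕ) : Prop :=
  ¬ ∃ M ∈ R, ∀ m ∈ M, ∃ _h : 0 < m ∧ m ≤ n, InA R (n - m)
termination_by n
decreasing_by omega

/-- The base ruleset. -/
def M0 : Set (Finset ℕ) := {M | ∃ d, 1 ≤ d ∧ M = {d, 2 * d}}

noncomputable def S (N : ℕ) : Finset ℕ := (rothNumberNat_spec N).choose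

lemma S_spec (N : ℕ) : S N ⊆ Finset.range N ∧ (S N).card = rothNumberNat N ∧
    ThreeAPFree (S N : Set ℕ) := (rothNumberNat_spec N).choose_spec

def Blk (k n : ℕ) : Prop := ∃ j ∈ S (6 ^ k), n = 4 * 6 ^ k + 2 * j

def A (n : ℕ) : Prop := n = 0 ∨ n = 1 ∨ ∃ k, Blk k n

lemma blk_bd {k n : ℕ} (h : Blk k n) : 4 * 6 ^ k ≤ n ∧ n < 6 * 6 ^ k ∧ n % 2 = 0 := by
  obtain ⟨j, hj, rfl⟩ := h
  have := Finset.mem_range.1 ((S_spec _).1 hj)
  omega

lemma below {k a c : ℕ} (hc : Blk k c) (ha : A a) (h : a ≤ c) : Blk k a ∨ a ≤ 6 ^ k := by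
  have h1 : 1 ≤ 6 ^ k := Nat.one_le_pow _ _ (by norm_num)
  rcases ha with rfl | rfl | ⟨l, hl⟩
  · exact Or.inr (by omega)
  · exact Or.inr h1
  · rcases lt_trichotomy l k with e | rfl | e
    · right
      have : 6 ^ (l + 1) ≤ 6 ^ k := Nat.pow_le_pow_right (by norm_num) e
      have := blk_bd hl
      omega
    · exact Or.inl hl
    · have : 6 ^ (k + 1) ≤ 6 ^ l := Nat.pow_le_pow_right (by norm_num) e
      have := blk_bd hl
      have := blk_bd hc
      omega

lemma noAP {a d : ℕ} (hd : 1 ≤ d) (h1 : A a) (h2 : A (a + d)) (h3 : A (a + 2 * d)) : False := by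
  rcases h3 with h | h | ⟨k, hc⟩
  · omega
  · omega
  have bc := blk_bd hc
  rcases below hc h2 (by omega) with hb | hb
  · have bb := blk_bd hb
    rcases below hc h1 (by omega) with ha | ha
    · obtain ⟨i, hi, e1⟩ := ha
      obtain ⟨j, hj, e2⟩ := hb
      obtain ⟨l, hl, e3⟩ := hc
      have := (S_spec (6 ^ k)).2.2 hi hj hl (by omega)
      omega
    · omega
  · omega

lemma consec {a : ℕ} (h1 : A a) (h2 : A (a + 1)) : a = 0 := by
  rcases h1 with h | h | ⟨k, hk⟩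
  · exact h
  · subst h
    rcases h2 with h | h | ⟨l, hl⟩
    · omega
    · omega
    · have := blk_bd hl
      have : 1 ≤ 6 ^ l := Nat.one_le_pow _ _ (by norm_num)
      omega
  · have := blk_bd hk
    have : 1 ≤ 6 ^ k := Nat.one_le_pow _ _ (by norm_num)
    rcases h2 with h | h | ⟨l, hl⟩
    · omega
    · omega
    · have := blk_bd hl
      omega

def M1 : Set (Finset ℕ) := {M | ∃ n, 2 ≤ n ∧ ¬ A n ∧ M = {n, n - 1}}

lemma inA (n : ℕ) : InA (M0 ∪ M1) n ↔ A n := by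
  induction n using Nat.strong_induction_on with
  | _ n ih =>
    rw [InA]
    constructor
    · intro h
      by_contra hn
      have h2 : 2 ≤ n := by
        by_contra hc
        exact hn (by unfold A; omega)
      apply h
      refine ⟨{n, n - 1}, Or.inr ⟨n, h2, hn, rfl⟩, ?_⟩
      intro m hm
      simp only [Finset.mem_insert, Finset.mem_singleton] at hm
      refine ⟨by omega, (ih _ (by omega)).2 ?_⟩
      unfold A
      omega
    · rintro hn ⟨M, ⟨d, hd, rfl⟩ | ⟨t, ht, hA, rfl⟩, hM⟩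
      · obtain ⟨l1, a1⟩ := hM d (by simp)
        obtain ⟨l2, a2⟩ := hM (2 * d) (by simp)
        rw [ih _ (by omega)] at a1 a2
        apply noAP hd a2
        · convert a1 using 1; omega
        · convert hn using 1; omega
      · obtain ⟨l1, a1⟩ := hM t (by simp)
        obtain ⟨l2, a2⟩ := hM (t - 1) (by simp)
        rw [ih _ (by omega)] at a1 a2
        have := consec a1 (by convert a2 using 1; omega)
        apply hA
        convert hn using 1; omega

lemma count (k : ℕ) :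
    rothNumberNat (6 ^ k) ≤ {i | i < 6 * 6 ^ k ∧ InA (M0 ∪ M1) i}.ncard := by
  rw [← (S_spec _).2.1, ← Set.ncard_coe_finset]
  refine Set.ncard_le_ncard_of_injOn (fun j => 4 * 6 ^ k + 2 * j) ?_ ?_ ?_
  · intro j hj
    have hb : Blk k (4 * 6 ^ k + 2 * j) := ⟨j, hj, rfl⟩
    exact ⟨(blk_bd hb).2.1, (inA _).2 (Or.inr (Or.inr ⟨k, hb⟩))⟩
  · intro a _ b _ h
    simp only at h
    omega
  · exact (Set.finite_lt_nat _).subset fun i hi => hi.1

lemma alpha : Real.log 2 / Real.log 3 ≤ 2 / 3 := by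
  have h3 : 0 < Real.log 3 := Real.log_pos (by norm_num)
  rw [div_le_div_iff₀ h3 (by norm_num)]
  have e1 : Real.log 2 * 3 = Real.log 8 := by
    rw [show (8 : ℝ) = 2 ^ 3 by norm_num, Real.log_pow]; push_cast; ring
  have e2 : 2 * Real.log 3 = Real.log 9 := by
    rw [show (9 : ℝ) = 3 ^ 2 by norm_num, Real.log_pow]; push_cast; ring
  rw [e1, e2]
  exact Real.log_le_log (by norm_num) (by norm_num)

lemma big (C : ℝ) (hC : 0 ≤ C) (N : ℝ) (hN : 1 ≤ N) (h1 : 15 ≤ √(Real.log N))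
    (h2 : 6 * C ≤ √(Real.log N)) :
    C * (6 * N) ^ (Real.log 2 / Real.log 3) < N * Real.exp (-4 * √(Real.log N)) := by
  set y := √(Real.log N) with hy
  have hL : Real.log N = y ^ 2 := (Real.sq_sqrt (Real.log_nonneg hN)).symm
  have a1 : (6 * N) ^ (Real.log 2 / Real.log 3) ≤ (6 * N) ^ (2 / 3 : ℝ) :=
    Real.rpow_le_rpow_of_exponent_le (by linarith) alpha
  have a2 : (6 * N) ^ (2 / 3 : ℝ) ≤ 6 * Real.exp (y ^ 2 * (2 / 3)) := by
    rw [Real.mul_rpow (by norm_num) (by linarith), Real.rpow_def_of_pos (by linarith : 0 < N), hL]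
    gcongr
    calc (6 : ℝ) ^ (2 / 3 : ℝ) ≤ 6 ^ (1 : ℝ) :=
          Real.rpow_le_rpow_of_exponent_le (by norm_num) (by norm_num)
      _ = 6 := Real.rpow_one _
  have a3 : N = Real.exp (y ^ 2) := by rw [← hL, Real.exp_log (by linarith)]
  have a4 : 6 * C < Real.exp y := by linarith [Real.add_one_le_exp y]
  calc C * (6 * N) ^ (Real.log 2 / Real.log 3) ≤ C * (6 * Real.exp (y ^ 2 * (2 / 3))) := by
        gcongr
        exact a1.trans a2
    _ = 6 * C * Real.exp (y ^ 2 * (2 / 3)) := by ring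
    _ < Real.exp y * Real.exp (y ^ 2 * (2 / 3)) := by gcongr
    _ ≤ Real.exp (y ^ 2) * Real.exp (-4 * y) := by
        rw [← Real.exp_add, ← Real.exp_add]
        apply Real.exp_le_exp.2
        nlinarith
    _ = N * Real.exp (-4 * y) := by rw [← a3]

theorem result : ∃ M' : Set (Finset ℕ), (∀ M ∈ M', M.Nonempty ∧ ∀ m ∈ M, 0 < m) ∧
    ∀ C : ℝ, ∃ᶠ x : ℕ in atTop,
      C < ({i | i < x ∧ InA (M0 ∪ M') i}.ncard : ℝ) / (x : ℝ) ^ (Real.log 2 / Real.log 3) := by
  refine ⟨M1, ?_, fun C => ?_⟩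
  · rintro M ⟨n, hn, -, rfl⟩
    refine ⟨by simp, fun m hm => ?_⟩
    simp only [Finset.mem_insert, Finset.mem_singleton] at hm
    omega
  rw [frequently_atTop]
  intro x0
  obtain ⟨k, hk⟩ := exists_nat_ge (max (x0 : ℝ) ((max 15 (6 * |C|)) ^ 2))
  have hk1 : k < 6 ^ k := Nat.lt_pow_self (by norm_num)
  have hx : x0 ≤ k := by exact_mod_cast (le_max_left _ _).trans hk
  refine ⟨6 * 6 ^ k, by omega, ?_⟩
  have hN : (1 : ℝ) ≤ ((6 ^ k : ℕ) : ℝ) := by exact_mod_cast Nat.one_le_pow _ _ (by norm_num)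
  have hl : max 15 (6 * |C|) ≤ √(Real.log ((6 ^ k : ℕ) : ℝ)) := by
    apply Real.le_sqrt_of_sq_le
    have : (1 : ℝ) ≤ Real.log 6 := by
      rw [Real.le_log_iff_exp_le (by norm_num)]
      linarith [Real.exp_one_lt_d9]
    push_cast
    rw [Real.log_pow]
    have h0 : (0 : ℝ) ≤ k := Nat.cast_nonneg _
    nlinarith [le_max_right (x0 : ℝ) ((max 15 (6 * |C|)) ^ 2)]
  have b := big |C| (abs_nonneg C) _ hN ((le_max_left _ _).trans hl) ((le_max_right _ _).trans hl)
  have r := Behrend.roth_lower_bound (N := 6 ^ k)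
  have c : (rothNumberNat (6 ^ k) : ℝ) ≤ ({i | i < 6 * 6 ^ k ∧ InA (M0 ∪ M1) i}.ncard : ℝ) := by
    exact_mod_cast count k
  have hp : (0 : ℝ) < ((6 * 6 ^ k : ℕ) : ℝ) ^ (Real.log 2 / Real.log 3) := by positivity
  rw [lt_div_iff₀ hp]
  have e : ((6 * 6 ^ k : ℕ) : ℝ) = 6 * ((6 ^ k : ℕ) : ℝ) := by push_cast; ring
  rw [e] at hp ⊢
  nlinarith [le_abs_self C]

end Pool.Agent.Results.MP_c84e26_co.Denser
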